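import Pool.Agent.Y215.CT.Stm

/-!
# Squares modulo a prime and solutions of a congruence
-/

set_option autoImplicit false

namespace Pool.Agent.Y907.CT

open Finset Pool.Agent.Y215.CT
open scoped Classical

theorem sq_mul {q : ℕ} [Fact q.Prime] (hq2 : q ≠ 2) {a b : ZMod q} (ha : a ≠ 0) (hb : b ≠ 0)
    (h : IsSquare a ↔ IsSquare b) : IsSquare (a * b) := by
  by_cases h1 : IsSquare a
  · exact h1.mul (h.1 h1)
  · have h2 : ¬ IsSquare b := fun h3 => h1 (h.2 h3)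
    have hF : ringChar (ZMod q) ≠ 2 := by
      rwa [ZMod.ringChar_zmod_n]
    have e1 := (quadraticChar_neg_one_iff_not_isSquare (F := ZMod q)).2 h1
    have e2 := (quadraticChar_neg_one_iff_not_isSquare (F := ZMod q)).2 h2
    rw [← quadraticChar_one_iff_isSquare (mul_ne_zero ha hb), map_mul, e1, e2]
    norm_num

theorem t_RES : S_RES := by
  intro q hq hq2 U hU
  have : Fact q.Prime := ⟨hq⟩
  have hne : ∀ a ∈ U, (a : ZMod q) ≠ 0 := by
    intro a ha h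
    rw [ZMod.natCast_eq_zero_iff] at h
    have h1 := hU a ha
    exact hq.one_lt.ne' (Nat.dvd_one.1 (h1 ▸ Nat.dvd_gcd h dvd_rfl))
  set P := U.filter (fun a : ℕ => IsSquare (a : ZMod q)) with hP
  set N := U.filter (fun a : ℕ => ¬ IsSquare (a : ZMod q)) with hN
  set S := (U ×ˢ U).filter (fun x => x.1 < x.2 ∧ IsSquare ((x.1 * x.2 : ℕ) : ZMod q)) with hS
  suffices hgoal : U.card * (U.card - 2) ≤ 4 * S.card by
    convert hgoal
  have hcard : P.card + N.card = U.card := by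
    rw [hP, hN]
    convert card_filter_add_card_filter_not (s := U) (fun a : ℕ => IsSquare (a : ZMod q))
  have hsub : P.offDiag ∪ N.offDiag ⊆ S ∪ S.image Prod.swap := by
    rintro ⟨a, b⟩ hab
    have key : a ∈ U ∧ b ∈ U ∧ a ≠ b ∧ (IsSquare (a : ZMod q) ↔ IsSquare (b : ZMod q)) := by
      rw [mem_union, mem_offDiag, mem_offDiag, hP, hN, mem_filter, mem_filter, mem_filter,
        mem_filter] at hab
      rcases hab with ⟨⟨h1, h2⟩, ⟨h3, h4⟩, h5⟩ | ⟨⟨h1, h2⟩, ⟨h3, h4⟩, h5⟩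
      · exact ⟨h1, h3, h5, ⟨fun _ => h4, fun _ => h2⟩⟩
      · exact ⟨h1, h3, h5, ⟨fun h => absurd h h2, fun h => absurd h h4⟩⟩
    obtain ⟨h1, h2, h3, h4⟩ := key
    have h5 := sq_mul hq2 (hne a h1) (hne b h2) h4
    rw [mem_union]
    rcases lt_or_gt_of_ne h3 with h6 | h6
    · left
      rw [hS, mem_filter]
      refine ⟨mk_mem_product h1 h2, h6, ?_⟩
      push_cast
      exact h5
    · right
      rw [mem_image]
      refine ⟨(b, a), ?_, rfl⟩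
      rw [hS, mem_filter]
      refine ⟨mk_mem_product h2 h1, h6, ?_⟩
      push_cast
      rw [mul_comm]
      exact h5
  have hdis : Disjoint P.offDiag N.offDiag := by
    rw [disjoint_left]
    rintro ⟨a, b⟩ h1 h2
    rw [mem_offDiag, hP, mem_filter] at h1
    rw [mem_offDiag, hN, mem_filter] at h2
    exact h2.1.2 h1.1.2
  have h1 := card_le_card hsub
  rw [card_union_of_disjoint hdis, offDiag_card, offDiag_card] at h1
  have h2 : (S ∪ S.image Prod.swap).card ≤ 2 * S.card := by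
    refine (card_union_le _ _).trans ?_
    have := card_image_le (s := S) (f := Prod.swap)
    omega
  have h3 : P.card * P.card - P.card + (N.card * N.card - N.card) ≤ 2 * S.card := h1.trans h2
  have hu : P.card ≤ P.card * P.card := Nat.le_mul_self _
  have hv : N.card ≤ N.card * N.card := Nat.le_mul_self _
  rw [← hcard]
  generalize P.card = u at *
  generalize N.card = v at *
  generalize S.card = s at *
  have h4 : u * u + v * v ≤ 2 * s + u + v := by omega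
  by_cases h5 : u + v < 2
  · have h6 : u + v - 2 = 0 := by omega
    rw [h6, mul_zero]
    exact Nat.zero_le _
  · have h6 : ((u + v - 2 : ℕ) : ℤ) = (u : ℤ) + v - 2 := by omega
    have h7 : (((u + v) * (u + v - 2) : ℕ) : ℤ) ≤ ((4 * s : ℕ) : ℤ) := by
      push_cast [h6]
      have h8 : (u : ℤ) * u + v * v ≤ 2 * s + u + v := by exact_mod_cast h4
      nlinarith [sq_nonneg ((u : ℤ) - v)]
    exact_mod_cast h7

theorem t_SEL : S_SEL := by
  intro g q a b i hg hq hq2 ha hb hab ha2 hb2 haq hbq hsq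
  have : Fact q.Prime := ⟨hq⟩
  obtain ⟨r, hr⟩ := hsq
  obtain ⟨t, ht⟩ : ∃ t : ℤ, (t : ZMod q) = r := ⟨r.val, by simp⟩
  have h1 : (q : ℤ) ∣ t ^ 2 - a * b := by
    rw [← ZMod.intCast_zmod_eq_zero_iff_dvd]
    push_cast at hr ⊢
    rw [ht, hr]
    ring
  obtain ⟨c, hc⟩ := h1
  have hqp : Prime (q : ℤ) := Nat.prime_iff_prime_int.1 hq
  have hq2' : ¬ (q : ℤ) ∣ 2 := by
    intro h
    have h2 : q ∣ 2 := by exact_mod_cast h
    exact hq2 ((Nat.prime_dvd_prime_iff_eq hq Nat.prime_two).1 h2)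
  have hqt : ¬ (q : ℤ) ∣ t := by
    intro h
    have h2 : (q : ℤ) ∣ a * b := by
      have h3 : (a : ℤ) * b = t ^ 2 - q * c := by linear_combination -hc
      rw [h3]
      exact dvd_sub (dvd_pow h two_ne_zero) (dvd_mul_right _ _)
    have h3 : q ∣ a * b := by exact_mod_cast h2
    rcases (Nat.Prime.dvd_mul hq).1 h3 with h4 | h4
    · exact haq ((Nat.prime_dvd_prime_iff_eq hq ha).1 h4).symm
    · exact hbq ((Nat.prime_dvd_prime_iff_eq hq hb).1 h4).symm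
  have hcop : IsCoprime (q : ℤ) (2 * t) := by
    rw [hqp.irreducible.coprime_iff_not_dvd]
    intro h
    rcases hqp.dvd_or_dvd h with h | h
    · exact hq2' h
    · exact hqt h
  obtain ⟨v, u, huv⟩ := hcop
  obtain ⟨t', ht'⟩ : ∃ t' : ℤ, t' = t + q * (-c * u) := ⟨_, rfl⟩
  have h2 : (q : ℤ) ^ 2 ∣ t' ^ 2 - a * b := by
    refine ⟨c * v + (c * u) ^ 2, ?_⟩
    rw [ht']
    linear_combination hc - (q : ℤ) * c * huv
  obtain ⟨s, hs⟩ : ∃ s : ℤ, s = 2 * t' ^ g := ⟨_, rfl⟩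
  have h3 : (q : ℤ) ^ 2 ∣ s ^ 2 - 4 * (a * b) ^ g := by
    have h4 : (t' ^ 2 - a * b : ℤ) ∣ (t' ^ 2) ^ g - (a * b) ^ g := sub_dvd_pow_sub_pow _ _ _
    have h5 : s ^ 2 - 4 * ((a : ℤ) * b) ^ g = 4 * ((t' ^ 2) ^ g - (a * b) ^ g) := by
      rw [hs, mul_pow, ← pow_mul, ← pow_mul, mul_comm g 2]
      ring
    rw [h5]
    exact dvd_mul_of_dvd_right (h2.trans h4) _
  -- an odd representative
  have hqodd : Odd ((q : ℤ) ^ 2) := by
    have h4 : Odd q := hq.odd_of_ne_two hq2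
    have h5 : Odd (q : ℤ) := by exact_mod_cast h4
    exact h5.pow
  obtain ⟨w, hw1, hw2⟩ : ∃ w : ℤ, Odd w ∧ (q : ℤ) ^ 2 ∣ w - s := by
    by_cases h : Odd s
    · exact ⟨s, h, by rw [sub_self]; exact dvd_zero _⟩
    · exact ⟨s + q ^ 2, (Int.not_odd_iff_even.1 h).add_odd hqodd, ⟨1, by ring⟩⟩
  have hqpos : (0 : ℤ) < (q : ℤ) ^ 2 := by
    have : (0 : ℤ) < q := by exact_mod_cast hq.pos
    positivity
  obtain ⟨L, hL⟩ : ∃ L : ℤ, L = 6 * (q : ℤ) ^ 2 * i := ⟨_, rfl⟩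
  obtain ⟨n₀, hn₀⟩ : ∃ n₀ : ℤ, n₀ = L + 1 + (w - (L + 1)) % (2 * (q : ℤ) ^ 2) := ⟨_, rfl⟩
  have hm1 := Int.emod_nonneg (w - (L + 1)) (b := 2 * (q : ℤ) ^ 2) (by positivity)
  have hm2 := Int.emod_lt_of_pos (w - (L + 1)) (b := 2 * (q : ℤ) ^ 2) (by positivity)
  have hm3 : (2 * (q : ℤ) ^ 2) ∣ n₀ - w := by
    have h4 := Int.emod_add_mul_ediv (w - (L + 1)) (2 * (q : ℤ) ^ 2)
    refine ⟨-((w - (L + 1)) / (2 * (q : ℤ) ^ 2)), ?_⟩
    rw [hn₀]
    linear_combination h4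
  obtain ⟨e, he⟩ := hm3
  -- the properties of the three numbers
  have hodd : ∀ k : ℤ, Odd (n₀ + 2 * (q : ℤ) ^ 2 * k) := by
    intro k
    have h4 : n₀ + 2 * (q : ℤ) ^ 2 * k = w + 2 * ((q : ℤ) ^ 2 * (e + k)) := by
      linear_combination he
    rw [h4]
    exact hw1.add_even (even_two_mul _)
  have hdvd : ∀ k : ℤ, (q : ℤ) ^ 2 ∣ (n₀ + 2 * (q : ℤ) ^ 2 * k) ^ 2 - 4 * (a * b) ^ g := by
    intro k
    have h4 : (q : ℤ) ^ 2 ∣ (n₀ + 2 * (q : ℤ) ^ 2 * k) - s := by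
      have h5 : (n₀ + 2 * (q : ℤ) ^ 2 * k) - s = (w - s) + q ^ 2 * (2 * (e + k)) := by
        linear_combination he
      rw [h5]
      exact dvd_add hw2 (dvd_mul_right _ _)
    have h5 : (n₀ + 2 * (q : ℤ) ^ 2 * k) ^ 2 - 4 * (a * b) ^ g =
        ((n₀ + 2 * (q : ℤ) ^ 2 * k) - s) * ((n₀ + 2 * (q : ℤ) ^ 2 * k) + s) +
          (s ^ 2 - 4 * (a * b) ^ g) := by ring
    rw [h5]
    exact dvd_add (dvd_mul_of_dvd_left h4 _) h3
  -- one of them is coprime to `a b`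
  have hone : ∀ p : ℕ, p.Prime → p ≠ 2 → p ≠ q → ∀ k l : ℤ, 0 ≤ k → k < l → l ≤ 2 →
      (p : ℤ) ∣ n₀ + 2 * (q : ℤ) ^ 2 * k → (p : ℤ) ∣ n₀ + 2 * (q : ℤ) ^ 2 * l → False := by
    intro p hp hp2 hpq k l hk hkl hl h4 h5
    have hpp : Prime (p : ℤ) := Nat.prime_iff_prime_int.1 hp
    have h6 : (p : ℤ) ∣ 2 * ((q : ℤ) ^ 2 * (l - k)) := by
      have h7 := dvd_sub h5 h4
      have h8 : (n₀ + 2 * (q : ℤ) ^ 2 * l) - (n₀ + 2 * (q : ℤ) ^ 2 * k) =
          2 * ((q : ℤ) ^ 2 * (l - k)) := by ring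
      rwa [h8] at h7
    have hp2' : ¬ (p : ℤ) ∣ 2 := by
      intro h
      have h2 : p ∣ 2 := by exact_mod_cast h
      exact hp2 ((Nat.prime_dvd_prime_iff_eq hp Nat.prime_two).1 h2)
    rcases hpp.dvd_or_dvd h6 with h7 | h7
    · exact hp2' h7
    · rcases hpp.dvd_or_dvd h7 with h8 | h8
      · have h9 := hpp.dvd_of_dvd_pow h8
        have h10 : p ∣ q := by exact_mod_cast h9
        exact hpq ((Nat.prime_dvd_prime_iff_eq hp hq).1 h10)
      · have h9 : l - k = 1 ∨ l - k = 2 := by omega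
        rcases h9 with h9 | h9
        · rw [h9] at h8
          exact hpp.not_isUnit (isUnit_of_dvd_one h8)
        · rw [h9] at h8
          exact hp2' h8
  have hgood : ∃ k : ℤ, 0 ≤ k ∧ k ≤ 2 ∧ ¬ (a : ℤ) ∣ n₀ + 2 * (q : ℤ) ^ 2 * k ∧
      ¬ (b : ℤ) ∣ n₀ + 2 * (q : ℤ) ^ 2 * k := by
    by_contra hcon
    push Not at hcon
    have hA := hone a ha ha2 haq
    have hB := hone b hb hb2 hbq
    have c0 := hcon 0 (by norm_num) (by norm_num)
    have c1 := hcon 1 (by norm_num) (by norm_num)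
    have c2 := hcon 2 (by norm_num) (by norm_num)
    by_cases a0 : (a : ℤ) ∣ n₀ + 2 * (q : ℤ) ^ 2 * 0
    · have a1 : ¬ (a : ℤ) ∣ n₀ + 2 * (q : ℤ) ^ 2 * 1 := fun h =>
        hA 0 1 (by norm_num) (by norm_num) (by norm_num) a0 h
      have a2 : ¬ (a : ℤ) ∣ n₀ + 2 * (q : ℤ) ^ 2 * 2 := fun h =>
        hA 0 2 (by norm_num) (by norm_num) (by norm_num) a0 h
      exact hB 1 2 (by norm_num) (by norm_num) (by norm_num) (c1 a1) (c2 a2)
    · by_cases a1 : (a : ℤ) ∣ n₀ + 2 * (q : ℤ) ^ 2 * 1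
      · have a2 : ¬ (a : ℤ) ∣ n₀ + 2 * (q : ℤ) ^ 2 * 2 := fun h =>
          hA 1 2 (by norm_num) (by norm_num) (by norm_num) a1 h
        exact hB 0 2 (by norm_num) (by norm_num) (by norm_num) (c0 a0) (c2 a2)
      · exact hB 0 1 (by norm_num) (by norm_num) (by norm_num) (c0 a0) (c1 a1)
  obtain ⟨k, hk0, hk2, hka, hkb⟩ := hgood
  have hi : (0 : ℤ) ≤ 6 * (q : ℤ) ^ 2 * i := by positivity
  have hlow : L < n₀ + 2 * (q : ℤ) ^ 2 * k := by
    have h4 : 0 ≤ 2 * (q : ℤ) ^ 2 * k := by positivity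
    rw [hn₀]
    linarith
  have hup : n₀ + 2 * (q : ℤ) ^ 2 * k ≤ L + 6 * (q : ℤ) ^ 2 := by
    have h4 : 2 * (q : ℤ) ^ 2 * k ≤ 2 * (q : ℤ) ^ 2 * 2 :=
      mul_le_mul_of_nonneg_left hk2 (by positivity)
    rw [hn₀]
    linarith [Int.add_one_le_iff.2 hm2]
  obtain ⟨n, hn⟩ := Int.eq_ofNat_of_zero_le (a := n₀ + 2 * (q : ℤ) ^ 2 * k) (by
    rw [hL] at hlow; linarith)
  have hodd' := hodd k
  have hdvd' := hdvd k
  rw [hn] at hlow hup hka hkb hodd' hdvd'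
  refine ⟨n, ?_, ?_, ?_, ?_, ?_⟩
  · rw [hL] at hlow
    exact_mod_cast hlow
  · have h4 : (n : ℤ) ≤ 6 * (q : ℤ) ^ 2 * (i + 1) := by
      rw [hL] at hup
      linarith
    exact_mod_cast h4
  · exact_mod_cast hodd'
  · rw [Nat.coprime_mul_iff_left]
    constructor
    · rw [ha.coprime_iff_not_dvd]
      exact fun h => hka (by exact_mod_cast h)
    · rw [hb.coprime_iff_not_dvd]
      exact fun h => hkb (by exact_mod_cast h)
  · have h4 : (((n : ℤ) ^ 2 - 4 * (a * b) ^ g : ℤ) : ZMod (q ^ 2)) = 0 := by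
      rw [ZMod.intCast_zmod_eq_zero_iff_dvd]
      exact_mod_cast hdvd'
    push_cast at h4 ⊢
    exact sub_eq_zero.1 h4

end Pool.Agent.Y907.CT
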